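import Pool.Agent.H335.BR.NonComm
import Pool.Agent.H335.BR.Embed

/-!
# Uncountably many commensurability classes of expansively embeddable profinite branch groups

The definitions (spherically homogeneous rooted trees, profinite branch groups, expansive
embeddability, commensurability) are in `Pool.Agent.H335.BR.Defs`.

The alphabet is `A = Fin 3 × Fin 4`, the labels are the pairs in `Sym(3) × Sym(4)`, with the two
sign homomorphisms `eps` and `chi`.  For a sequence `lam` of Booleans, `U lam` is the group of the
automorphisms of the tree of words over `A` whose portrait `φ` satisfies, at every vertex `v`,
`eps (φ v) = ∏ chi (φ (v.take i))` over the proper ancestors `v.take i` of `v` at a distance `k`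
with `lam (k - 1) = true`.

* The rigid stabiliser of a vertex is isomorphic to `U lam`, and `U lam` together with the
  involution exchanging `x :: u` and `y :: y :: u` (`x ≠ y` two letters) generates a compactly
  generated expansive t.d.l.c. group.
* An isomorphism between open subgroups of `U lam` and `U mu` is induced, below some vertex, by
  an isomorphism of trees (`Pool.Agent.H335.BR.rigid`); it preserves the cycle types of the labels,
  and hence determines `lam`.
-/

set_option autoImplicit false

namespace Pool.Agent.Results.MP_e2d4a1_al.UncountablyManyClasses

open Pool.Agent.H335.BR

/-- The profinite branch group `G` is expansively embeddable. -/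
def IsEmbeddable (G : BranchGroup) : Prop :=
  letI := G.order
  ExpansivelyEmbeddable G.U

/-- The set of the commensurability classes of expansively embeddable profinite branch groups. -/
def classes : Set (Quotient commensurability) :=
  {c | ∃ G : BranchGroup, IsEmbeddable G ∧ Quotient.mk commensurability G = c}

/-- **Q1, positive answer.** There is a family of expansively embeddable profinite branch groups
indexed by the sequences of Booleans whose members are pairwise non-commensurable; in particular,
there are uncountably many commensurability classes of expansively embeddable profinite branch
groups. -/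
theorem result :
    (∃ F : (ℕ → Bool) → BranchGroup, (∀ lam, IsEmbeddable (F lam)) ∧
      ∀ lam mu, commensurability (F lam) (F mu) → lam = mu) ∧ ¬ classes.Countable := by
  have h1 : ∀ lam, IsEmbeddable (grp lam) := fun lam => embeddable lam
  have h2 : ∀ lam mu, commensurability (grp lam) (grp mu) → lam = mu :=
    fun lam mu h => lam_eq_of_comm h
  refine ⟨⟨grp, h1, h2⟩, fun hc => ?_⟩
  have h3 : (Set.range fun lam => Quotient.mk commensurability (grp lam)).Countable := by
    refine hc.mono ?_
    rintro _ ⟨lam, rfl⟩
    exact ⟨grp lam, h1 lam, rfl⟩
  have h4 : Function.Injective fun lam => Quotient.mk commensurability (grp lam) :=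
    fun lam mu h => h2 lam mu (Quotient.exact h)
  have h5 : (Set.univ : Set (ℕ → Bool)).Countable := by
    rw [← Set.image_univ] at h3
    exact Set.countable_of_injective_of_countable_image h4.injOn h3
  have h6 : Countable (ℕ → Bool) := Set.countable_univ_iff.1 h5
  obtain ⟨f, hf⟩ := exists_surjective_nat (ℕ → Bool)
  obtain ⟨n, hn⟩ := hf fun n => !(f n n)
  have h7 := congrFun hn n
  simp at h7

end Pool.Agent.Results.MP_e2d4a1_al.UncountablyManyClasses
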